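import Pool.Agent.H.MP_f9d380_an.Ex

namespace Pool.Agent.Results.MP_f9d380_an.NotUniform

open Finset Filter Topology Pool.Agent.H.MP_f9d380_an

theorem result (C : ℝ) : ∃ (X : Type) (_ : NormedAddCommGroup X) (_ : NormedSpace ℝ X)
    (_ : CompleteSpace X) (x : ℕ → X) (e : ℕ → X →L[ℝ] ℝ),
    (∀ n k, e n (x k) = if n = k then 1 else 0) ∧ (∃ c, ∀ n, ‖x n‖ ≤ c ∧ ‖e n‖ ≤ c) ∧
    (∀ f, Tendsto (fun m => ∑ n ∈ range m, e n f • x n) atTop (𝓝 f)) ∧
    (∃ K, ∀ m f, ‖∑ n ∈ range m, e n f • x n‖ ≤ K * ‖f‖) ∧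
    (∀ m, 1 ≤ m → ∀ (f : X) (A : Finset ℕ), A.card = m →
      (∀ n ∈ A, ∀ k ∉ A, |e k f| ≤ |e n f|) → ∀ (B : Finset ℕ) (b : ℕ → ℝ), B.card ≤ m →
        ∃ a : ℕ → ℝ, ‖f - ∑ n ∈ A, a n • x n‖ ≤ 2 * ‖f - ∑ n ∈ B, b n • x n‖) ∧
    ∃ (f : X) (A : Finset ℕ), A.card = 1 ∧ (∀ n ∈ A, ∀ k ∉ A, |e k f| ≤ |e n f|) ∧
      C * ‖f‖ < ‖∑ n ∈ A, e n f • x n‖ := by
  let M := 2 * |C| + 1
  have hM : 1 ≤ M := le_add_of_nonneg_left (by positivity)
  refine ⟨Y M, inferInstance, inferInstance, inferInstance, fun n => T M (u n), ev M,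
    fun n k => u_app n k, ⟨M, fun n => ⟨by simpa [norm_u] using T_le hM (u n), ?_⟩⟩, fun f => ?_,
    ⟨M, fun m f => ?_⟩, fun m hm f A hA g B b hB => ?_, T M (u 0 - u 1), {0}, rfl, ?_, ?_⟩
  · refine ContinuousLinearMap.opNorm_le_bound _ (by linarith) fun f => ?_
    rw [← T_U M f, ev_T]
    have := (lp.norm_apply_le_norm one_ne_zero (U M f) n).trans (le_T M _)
    nlinarith [norm_nonneg (T M (U M f))]
  · have h := ((lp.hasSum_single (by simp) (U M f)).mapL (T M)).tendsto_sum_nat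
    rw [T_U] at h
    simp only [← smul_u, map_smul] at h
    exact h
  · rw [← T_U M f, T_sum]
    refine (T_le hM _).trans (mul_le_mul_of_nonneg_left (le_trans ?_ (le_T M _)) (by linarith))
    have h1 := lp.norm_sum_single (p := 1) (E := fun _ : ℕ => ℝ) (by simp) (U M f) (range m)
    have h2 := lp.sum_rpow_le_norm_rpow (p := 1) (by simp) (U M f) (range m)
    simp only [ENNReal.toReal_one, Real.rpow_one, ← smul_u] at h1 h2
    exact h1.trans_le h2
  · rw [← T_U M f]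
    exact cheb M _ A B b (by omega) (card_pos.1 (by omega)) g
  · intro n hn k hk
    rw [mem_singleton] at hn hk
    simp only [ev_T, lp.coeFn_sub, Pi.sub_apply, u_app, hn, if_neg hk]
    split_ifs <;> simp_all
  · have h1 := norm_sub_le (u 0) (u 1)
    have h2 : |M * S (u 0)| ≤ ‖T M (u 0)‖ := le_max_right _ _
    rw [norm_u, norm_u] at h1
    rw [S_u, mul_one, abs_of_pos (by linarith)] at h2
    rw [sum_singleton, ev_T, lp.coeFn_sub, Pi.sub_apply, u_app, u_app, if_pos rfl,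
      if_neg zero_ne_one, sub_zero, one_smul, norm_T, map_sub, S_u, S_u, sub_self, mul_zero,
      abs_zero, max_eq_left (norm_nonneg _)]
    nlinarith [le_abs_self C, abs_nonneg C, norm_nonneg (u 0 - u 1)]

end Pool.Agent.Results.MP_f9d380_an.NotUniform
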