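import Pool.Agent.H.MP_f9d380_an.Main

namespace Pool.Agent.Results.MP_f9d380_an.SchauderLinear

open Finset Pool.Agent.H.MP_f9d380_an

def Greedy {𝕜 X : Type} [RCLike 𝕜] [AddCommGroup X] [Module 𝕜 X] (e : ℕ → X →ₗ[𝕜] 𝕜) (f : X)
    (A : Finset ℕ) : Prop :=
  ∀ n ∈ A, ∀ k ∉ A, ‖e k f‖ ≤ ‖e n f‖

theorem result (𝕜 : Type) [RCLike 𝕜] (p c K : ℝ) (hp : 0 < p) : ∃ C : ℝ,
    ∀ (X : Type) [AddCommGroup X] [Module 𝕜 X] (N : X → ℝ) (x : ℕ → X) (e : ℕ → X →ₗ[𝕜] 𝕜),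
      (∀ f, 0 ≤ N f) → (∀ (a : 𝕜) f, N (a • f) = ‖a‖ * N f) →
      (∀ f g, N (f + g) ^ p ≤ N f ^ p + N g ^ p) →
      (∀ n k, e n (x k) = if n = k then 1 else 0) →
      (∀ n, N (x n) ≤ c) → (∀ n f, ‖e n f‖ ≤ c * N f) →
      (∀ m f, N (∑ n ∈ range m, e n f • x n) ≤ K * N f) →
      ∀ (m : ℕ) (L : ℝ), 0 ≤ L →
        (∀ (f : X) (A : Finset ℕ), A.card = m → Greedy e f A →
          (∀ n ∈ A, ∀ k ∉ A, ‖e k f‖ = ‖e n f‖ → n < k) →
          ∀ (B : Finset ℕ) (b : ℕ → 𝕜), B.card ≤ m → ∃ a : ℕ → 𝕜,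
            N (f - ∑ n ∈ A, a n • x n) ≤ L * N (f - ∑ n ∈ B, b n • x n)) →
        (∀ (f : X) (A : Finset ℕ), A.card ≤ m → Greedy e f A →
          N (∑ n ∈ A, e n f • x n) ≤ C * L * N f) ∧
        (∀ (f : X) (A B : Finset ℕ) (ε : ℕ → 𝕜) (t : ℝ), B.card ≤ m → A.card = B.card →
          (∀ n ∈ A, ‖ε n‖ = 1) → Greedy e f B → (∀ n ∈ B, t ≤ ‖e n f‖) →
          t * N (∑ n ∈ A, ε n • x n) ≤ C * L * N f) := by
  let c' := |c| ^ p
  let K' := |K| ^ p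
  have c0 : 0 ≤ c' := by positivity
  have K0 : 0 ≤ K' := by positivity
  let D := (K' * (c' * c') + 4 * K' * (K' + c' * c')) + 8 * K' * (2 * K' + c' * c')
  have D0 : 0 ≤ D := by positivity
  refine ⟨D ^ p⁻¹, fun X _ _ N x e nn sm tri bi qx qe qP m L hL ch => ?_⟩
  have up : ∀ (u r : ℝ) (f : X), 0 ≤ u → u ≤ r * N f → u ^ p ≤ |r| ^ p * N f ^ p :=
    fun u r f h0 h1 => by
      rw [← Real.mul_rpow (abs_nonneg r) (nn f)]
      exact Real.rpow_le_rpow h0 (h1.trans (mul_le_mul_of_nonneg_right (le_abs_self r) (nn f)))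
        hp.le
  have h : Ctx (fun f => N f ^ p) x e p c' K' (|L| ^ p) m :=
    ⟨hp, fun f => Real.rpow_nonneg (nn f) _,
      fun a f => by rw [sm, Real.mul_rpow (norm_nonneg _) (nn f)], tri, bi,
      fun n => Real.rpow_le_rpow (nn _) ((qx n).trans (le_abs_self c)) hp.le,
      fun n f => up _ _ f (norm_nonneg _) (qe n f), fun m f => up _ _ f (nn _) (qP m f),
      fun f A h1 h2 B b hB => by
        obtain ⟨a, ha⟩ := ch f A h1 (fun n hn k hk => (h2 n hn k hk).le)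
          (fun n hn k hk h3 => absurd h3 (h2 n hn k hk).ne) B b hB
        exact ⟨a, up _ _ _ (nn _) ha⟩⟩
  rw [abs_of_nonneg hL] at h
  have C0 : ∀ f, 0 ≤ D ^ p⁻¹ * L * N f := fun f => mul_nonneg (by positivity) (nn f)
  have down : ∀ (u : ℝ) (f : X), 0 ≤ u → u ^ p ≤ D * L ^ p * N f ^ p → u ≤ D ^ p⁻¹ * L * N f :=
    fun u f h0 h1 => by
      rwa [← Real.rpow_le_rpow_iff h0 (C0 f) hp, Real.mul_rpow (by positivity) (nn f),
        Real.mul_rpow (by positivity) hL, Real.rpow_inv_rpow D0 hp.ne']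
  have Z : ∀ f, 0 ≤ L ^ p * N f ^ p := fun f => mul_nonneg (by positivity) (h.nn f)
  refine ⟨fun f A hA g => down _ f (nn _) ((h.qg f A hA g).trans ?_),
    fun f A B ε t hB hA hε g ht => ?_⟩
  · nlinarith [mul_nonneg (show 0 ≤ 8 * K' * (2 * K' + c' * c') by positivity) (Z f)]
  rcases le_total t 0 with t0 | t0
  · exact (mul_nonpos_of_nonpos_of_nonneg t0 (nn _)).trans (C0 f)
  refine down _ f (mul_nonneg t0 (nn _)) ?_
  rw [Real.mul_rpow t0 (nn _)]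
  refine (h.lam f A B ε t hB hA hε t0 ht g).trans ?_
  nlinarith [mul_nonneg (show 0 ≤ K' * (c' * c') + 4 * K' * (K' + c' * c') by positivity) (Z f)]

end Pool.Agent.Results.MP_f9d380_an.SchauderLinear
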